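import Mathlib

set_option autoImplicit false

namespace Pool.Agent.KS6_54.VG

/-- `F ⊆ [k]^d` has no strong copy of `∨₂` -/
def VFree {k d : ℕ} (F : Finset (Fin d → Fin k)) : Prop :=
  ¬ ∃ a ∈ F, ∃ b₁ ∈ F, ∃ b₂ ∈ F, a < b₁ ∧ a < b₂ ∧ ¬ b₁ ≤ b₂ ∧ ¬ b₂ ≤ b₁

open Classical in
/-- `La*([k]^d, ∨₂)` -/
noncomputable def La (k d : ℕ) : ℕ :=
  (Finset.univ.filter fun F : Finset (Fin d → Fin k) => VFree F).sup Finset.card

open Classical in
/-- the width `w_{k,d}` of `[k]^d` -/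
noncomputable def w (k d : ℕ) : ℕ :=
  (Finset.univ.filter fun A : Finset (Fin d → Fin k) =>
    IsAntichain (· ≤ ·) (A : Set (Fin d → Fin k))).sup Finset.card

end Pool.Agent.KS6_54.VG
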