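import Mathlib
import Pool.Agent.KS6_54.VG.Defs

set_option autoImplicit false

namespace Pool.Agent.KS6_54.VG

open Finset

def rk {k d : ℕ} (x : Fin d → Fin k) : ℕ := ∑ i, (x i : ℕ)

lemma rk_succ {k d : ℕ} (x : Fin (d + 1) → Fin k) : rk x = x 0 + rk (Fin.tail x) :=
  Fin.sum_univ_succ _

/-- symmetric chains of `[k+1]^d` -/
lemma scd (k d : ℕ) : ∃ (key : (Fin d → Fin (k + 1)) → List ℕ),
    (∀ x, (key x).sum ≤ rk x ∧ rk x + (key x).sum ≤ d * k) ∧
    (∀ x y, key x = key y → rk x ≤ rk y → x ≤ y) ∧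
    ∀ x r, (key x).sum ≤ r → r + (key x).sum ≤ d * k → ∃ y, key y = key x ∧ rk y = r := by
  induction d with
  | zero =>
    exact ⟨fun _ => [], fun x => by simp [rk], fun x y _ _ i => i.elim0,
      fun x r _ h => ⟨x, rfl, by simp [rk] at h ⊢; omega⟩⟩
  | succ d ih =>
    obtain ⟨key, h1, h2, h3⟩ := ih
    refine ⟨fun x => min (x 0 : ℕ) (d * k - (key (Fin.tail x)).sum - rk (Fin.tail x)) ::
      key (Fin.tail x), fun x => ?_, fun x y e l => ?_, fun x r a b => ?_⟩
    · have := h1 (Fin.tail x)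
      have := (x 0).2
      rw [List.sum_cons, rk_succ, add_one_mul]
      omega
    · obtain ⟨e1, e2⟩ := List.cons.inj e
      have a := h1 (Fin.tail x)
      have b := h1 (Fin.tail y)
      rw [rk_succ, rk_succ] at l
      rw [e2] at e1 a
      intro i
      refine Fin.cases ?_ (fun i => h2 _ _ e2 (by omega) i) i
      rw [Fin.le_def]
      omega
    · have c := h1 (Fin.tail x)
      have := (x 0).2
      simp only [List.sum_cons, add_one_mul] at a b
      generalize hj : min (x 0 : ℕ) (d * k - (key (Fin.tail x)).sum - rk (Fin.tail x)) = j at *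
      rcases le_or_gt (r + (key (Fin.tail x)).sum) (d * k) with h | h
      · obtain ⟨y, e1, e2⟩ := h3 (Fin.tail x) (r - j) (by omega) (by omega)
        refine ⟨Fin.cons ⟨j, by omega⟩ y, ?_, ?_⟩
        · simp only [Fin.cons_zero, Fin.tail_cons, e1, e2, hj, List.cons.injEq, and_true]
          omega
        · rw [rk_succ, Fin.cons_zero, Fin.tail_cons, e2]
          simp only
          omega
      · obtain ⟨y, e1, e2⟩ := h3 (Fin.tail x) (d * k - (key (Fin.tail x)).sum - j) (by omega)
          (by omega)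
        refine ⟨Fin.cons ⟨r + j + (key (Fin.tail x)).sum - d * k, by omega⟩ y, ?_, ?_⟩
        · simp only [Fin.cons_zero, Fin.tail_cons, e1, e2, hj, List.cons.injEq, and_true]
          omega
        · rw [rk_succ, Fin.cons_zero, Fin.tail_cons, e2]
          simp only
          omega

/-- the size of a level -/
def N (k d T : ℕ) : ℕ := #{x : Fin d → Fin k | rk x = T}

lemma w_le (k d : ℕ) : w (k + 1) d ≤ N (k + 1) d (d * k / 2) := by
  classical
  obtain ⟨key, h1, h2, h3⟩ := scd k d
  choose f f1 f2 using fun x => h3 x (d * k / 2) (by have := h1 x; omega) (by have := h1 x; omega)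
  refine Finset.sup_le fun A hA => card_le_card_of_injOn f (fun x _ => by simp [f2])
    fun x hx y hy e => ?_
  have a : key x = key y := by rw [← f1 x, e, f1]
  have b := (mem_filter.1 hA).2
  exact (le_total _ _).elim (fun c => b.eq hx hy (h2 _ _ a c))
    fun c => (b.eq hy hx (h2 _ _ a.symm c)).symm

lemma w_pos (k d : ℕ) : 0 < w (k + 1) d := by
  classical
  exact lt_of_lt_of_le (by simp) (le_sup (f := card) (b := {0})
    (mem_filter.2 ⟨mem_univ _, by simp⟩))

/-- two coordinates are determined by the others on such a set -/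
lemma two {k e : ℕ} (S : Finset (Fin (e + 2) → Fin k)) {i j : Fin (e + 2)} (h : i ≠ j)
    (hS : ∀ x ∈ S, ∀ y ∈ S, (∀ l, l ≠ i → l ≠ j → x l = y l) → x = y) : #S ≤ k ^ e := by
  have c : #((univ.erase i).erase j) = e := by
    rw [card_erase_of_mem (by simp [h.symm]), card_erase_of_mem (mem_univ _)]
    simp
  refine (card_le_card_of_injOn (t := univ)
    (fun x (l : ((univ : Finset (Fin (e + 2))).erase i).erase j) => x l)
    (fun _ _ => mem_univ _) fun x hx y hy a => hS x hx y hy fun l b d =>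
      congrFun a ⟨l, by simp [b, d]⟩).trans ?_
  rw [card_univ, Fintype.card_fun, Fintype.card_fin, Fintype.card_coe, c]

lemma rk_split {k d : ℕ} (x : Fin d → Fin k) (i : Fin d) :
    rk x = x i + ∑ l ∈ univ.erase i, (x l : ℕ) := (add_sum_erase _ _ (mem_univ i)).symm

lemma rk_split2 {k d : ℕ} (x : Fin d → Fin k) {i j : Fin d} (h : i ≠ j) :
    ∑ l ∈ univ.erase i, (x l : ℕ) = x j + ∑ l ∈ (univ.erase i).erase j, (x l : ℕ) :=
  (add_sum_erase _ (fun l => (x l : ℕ)) (by simp [h.symm])).symm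

lemma ext2 {k d : ℕ} {x y : Fin d → Fin k} {i j : Fin d} (a : x i = y i) (b : x j = y j)
    (c : ∀ l, l ≠ i → l ≠ j → x l = y l) : x = y := funext fun l => by
  by_cases p : l = i
  · rw [p, a]
  · by_cases q : l = j
    · rw [q, b]
    · exact c l p q

lemma sum_off {k d : ℕ} {x y : Fin d → Fin k} {i j : Fin d}
    (c : ∀ l, l ≠ i → l ≠ j → x l = y l) :
    ∑ l ∈ (univ.erase i).erase j, (x l : ℕ) = ∑ l ∈ (univ.erase i).erase j, (y l : ℕ) :=
  sum_congr rfl fun l hl => by
    simp only [mem_erase] at hl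
    rw [c l hl.2.1 hl.1]

lemma slab {k e : ℕ} (T c : ℕ) (i : Fin (e + 2)) :
    #{x : Fin (e + 2) → Fin k | rk x = T ∧ (x i : ℕ) = c} ≤ k ^ e := by
  obtain ⟨j, hj⟩ := exists_ne i
  refine two _ hj.symm fun x hx y hy a => ?_
  obtain ⟨x1, x2⟩ := (mem_filter.1 hx).2
  obtain ⟨y1, y2⟩ := (mem_filter.1 hy).2
  rw [rk_split _ i, rk_split2 _ hj.symm] at x1 y1
  have := sum_off a
  exact ext2 (Fin.ext (by omega)) (Fin.ext (by omega)) a

lemma N_up (k e T : ℕ) : N k (e + 2) T ≤ N k (e + 2) (T + 1) + k ^ e := by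
  rw [N, ← card_filter_add_card_filter_not fun x => (x 0 : ℕ) + 1 < k]
  refine Nat.add_le_add (card_le_card_of_injOn (fun x => if h : (x 0 : ℕ) + 1 < k then
    Function.update x 0 ⟨x 0 + 1, h⟩ else x) (fun x hx => ?_) fun x hx y hy a => ?_)
    ((card_le_card fun x hx => ?_).trans (slab T (k - 1) 0))
  · simp only [coe_filter, mem_filter, mem_univ, true_and, Set.mem_ofPred_eq] at hx ⊢
    have := rk_succ x
    rw [dif_pos hx.2, rk_succ, Fin.tail_update_zero, Function.update_self]
    simp only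
    omega
  · simp only [coe_filter, mem_filter, mem_univ, true_and, Set.mem_ofPred_eq] at hx hy a
    rw [dif_pos hx.2, dif_pos hy.2] at a
    funext l
    have b := congrFun a l
    by_cases c : l = 0
    · subst c
      simpa [Fin.ext_iff] using b
    · simpa [c] using b
  · simp only [mem_filter, mem_univ, true_and] at hx ⊢
    have := (x 0).2
    omega

lemma N_ups (k e T j : ℕ) : N k (e + 2) T ≤ N k (e + 2) (T + j) + j * k ^ e := by
  induction j with
  | zero => simp
  | succ j ih =>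
    have := N_up k e (T + j)
    rw [← add_assoc, add_one_mul]
    omega

lemma N_pad (k e T : ℕ) : N (k + 1) (e + 2) T ≤ N k (e + 2) T + (e + 2) * (k + 1) ^ e := by
  rw [N, ← card_filter_add_card_filter_not fun x => ∀ i, (x i : ℕ) < k]
  refine Nat.add_le_add (le_trans (card_le_card (t := (univ.filter fun x : Fin (e + 2) → Fin k =>
    rk x = T).image fun x i => (x i).castSucc) fun x hx => ?_) card_image_le) ?_
  · simp only [mem_filter, mem_univ, true_and, mem_image] at hx ⊢
    exact ⟨fun i => ⟨x i, hx.2 i⟩, hx.1, rfl⟩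
  · refine (card_le_card (t := univ.biUnion fun i : Fin (e + 2) =>
      {x : Fin (e + 2) → Fin (k + 1) | rk x = T ∧ (x i : ℕ) = k}) fun x hx => ?_).trans
      ((card_biUnion_le_card_mul _ _ _ fun i _ => slab T k i).trans (by simp))
    simp only [mem_filter, mem_univ, true_and, mem_biUnion, not_forall] at hx ⊢
    obtain ⟨a, i, b⟩ := hx
    exact ⟨i, a, by have := (x i).2; omega⟩

lemma N_max (k d : ℕ) : ∃ σ, (∀ T, N (k + 1) d T ≤ N (k + 1) d σ) ∧
    (k + 1) ^ d ≤ N (k + 1) d σ * (d * k + 1) := by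
  have b : ∀ x : Fin d → Fin (k + 1), rk x ∈ range (d * k + 1) := fun x => by
    have := sum_le_card_nsmul univ (fun i => (x i : ℕ)) k fun i _ => Nat.le_of_lt_succ (x i).2
    simpa [Nat.lt_succ_iff, rk] using this
  obtain ⟨σ, -, h⟩ := exists_max_image (range (d * k + 1)) (N (k + 1) d) (by simp)
  refine ⟨σ, fun T => ?_, ?_⟩
  · by_cases a : T ∈ range (d * k + 1)
    · exact h T a
    · rw [N, card_eq_zero.2 (filter_eq_empty_iff.2 fun x _ c => a (by rw [← c]; exact b x))]
      exact Nat.zero_le _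
  · simpa using card_le_mul_card_image_of_maps_to (s := univ) (fun x _ => b x) _ h

lemma N_blow {k K L e m : ℕ} (hL : 0 < L) (hk : k ≤ L * K) (hm : ∀ T, N K (e + 1) T ≤ m) (T : ℕ) :
    N k (e + 1) T ≤ m * L ^ e := by
  have dm : ∀ x : Fin (e + 1) → Fin k,
      rk x = L * ∑ i, (x i : ℕ) / L + ((x 0 : ℕ) % L + ∑ i : Fin e, (x i.succ : ℕ) % L) :=
    fun x => by
      rw [← Fin.sum_univ_succ fun i => (x i : ℕ) % L, mul_sum, ← sum_add_distrib]
      exact sum_congr rfl fun i _ => (Nat.div_add_mod _ _).symm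
  refine (card_le_mul_card_image_of_maps_to (t := univ)
    (f := fun (x : Fin (e + 1) → Fin k) (i : Fin e) => (⟨x i.succ % L, Nat.mod_lt _ hL⟩ : Fin L))
    (fun _ _ => mem_univ _) m fun r _ => ?_).trans (by simp)
  refine le_trans (card_le_card_of_injOn (fun x i => (⟨x i / L, Nat.div_lt_of_lt_mul
    (lt_of_lt_of_le (x i).2 hk)⟩ : Fin K)) (fun x hx => ?_) fun x hx y hy a => ?_)
    (hm ((T - ∑ i, (r i : ℕ)) / L))
  · simp only [coe_filter, mem_filter, mem_univ, true_and, Set.mem_ofPred_eq] at hx ⊢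
    obtain ⟨a, rfl⟩ := hx
    rw [← a, dm, ← add_assoc, Nat.add_sub_cancel, Nat.mul_add_div hL,
      Nat.div_eq_of_lt (Nat.mod_lt _ hL)]
    rfl
  · simp only [coe_filter, mem_filter, mem_univ, true_and, Set.mem_ofPred_eq] at hx hy
    have q : ∀ i, (x i : ℕ) / L = y i / L := fun i => Fin.mk.inj (congrFun a i)
    have p : ∀ i : Fin e, (x i.succ : ℕ) % L = y i.succ % L := fun i =>
      Fin.mk.inj (congrFun (hx.2.trans hy.2.symm) i)
    have b := dm x
    have c := dm y
    simp only [q, p] at b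
    funext i
    refine Fin.ext (Nat.ext_div_mod (q i) (Fin.cases (by omega) p i))

end Pool.Agent.KS6_54.VG
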