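import Mathlib
import Pool.Agent.KS6_54.VG.Defs
import Pool.Agent.KS6_54.VG.Build

set_option autoImplicit false

namespace Pool.Agent.KS6_54.VG

open Filter Topology

lemma ar {D a ε δ m p Q L W A : ℝ} (ha : 0 < a) (hD : D ≤ 2 * a) (h0 : 0 ≤ D) (d0 : 0 < δ)
    (d1 : δ ≤ 1) (d2 : 6 * δ ≤ ε) (m0 : 0 ≤ m * (Q * L)) (m1 : 0 ≤ m) (W0 : 0 ≤ W) (A0 : 0 ≤ A)
    (hp : D * (Q * L) * (1 - δ) ≤ a * p) (hA : p * (m * (1 - δ)) ≤ A)
    (hW : W ≤ (1 + δ) * (m * (Q * L))) : (D / a - ε) * W ≤ A := by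
  obtain ⟨c, rfl⟩ : ∃ c, D = c * a := ⟨D / a, by field_simp⟩
  rw [mul_div_cancel_right₀ _ ha.ne']
  have c2 : c ≤ 2 := le_of_mul_le_mul_right hD ha
  have c0 : 0 ≤ c := nonneg_of_mul_nonneg_left h0 ha
  have hp' : c * (Q * L) * (1 - δ) ≤ p := le_of_mul_le_mul_left (by linarith) ha
  rcases le_total (c - ε) 0 with h | h
  · nlinarith
  have e : (c - ε) * (1 + δ) ≤ c * (1 - δ) ^ 2 := by nlinarith [mul_nonneg c0 (sq_nonneg δ)]
  calc _ ≤ (c - ε) * ((1 + δ) * (m * (Q * L))) := by gcongr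
    _ ≤ c * (1 - δ) ^ 2 * (m * (Q * L)) := by rw [← mul_assoc]; gcongr
    _ = c * (Q * L) * (1 - δ) * (m * (1 - δ)) := by ring
    _ ≤ p * (m * (1 - δ)) := mul_le_mul_of_nonneg_right hp' (mul_nonneg m1 (by linarith))
    _ ≤ A := hA

lemma part1 (d : ℕ) (hd : 2 ≤ d) (ε : ℝ) (hε : 0 < ε) :
    ∀ᶠ k : ℕ in atTop, ((d : ℝ) / (d - 1) - ε) * w k d ≤ La k d := by
  obtain ⟨e, rfl⟩ : ∃ e, d = e + 2 := ⟨d - 2, by omega⟩
  obtain ⟨δ, d0, d1, d2⟩ : ∃ δ : ℝ, 0 < δ ∧ δ ≤ 1 ∧ 6 * δ ≤ ε :=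
    ⟨min 1 (ε / 6), by positivity, min_le_left _ _, by linarith [min_le_right 1 (ε / 6)]⟩
  obtain ⟨L, hL⟩ := exists_nat_ge (((e : ℝ) + 2) / δ)
  obtain ⟨K₀, hK⟩ := exists_nat_ge (((e : ℝ) + 2) ^ 3 * 2 ^ e / δ)
  rw [div_le_iff₀ d0] at hL hK
  filter_upwards [eventually_ge_atTop ((K₀ + 1) * (L + 1))] with k hk
  obtain ⟨K, e1⟩ : ∃ K, k / (L + 1) = K₀ + K + 1 :=
    ⟨k / (L + 1) - K₀ - 1, by
      have : K₀ + 1 ≤ k / (L + 1) := (Nat.le_div_iff_mul_le (Nat.succ_pos L)).2 hk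
      omega⟩
  have a := Nat.div_add_mod k (L + 1)
  have b : k % (L + 1) < L + 1 := Nat.mod_lt _ (Nat.succ_pos L)
  rw [e1] at a
  obtain ⟨m, p, h1, h2, h3, h4⟩ := fin k (K₀ + K) L e (by omega) 
    (by rw [show K₀ + K + 2 = K₀ + K + 1 + 1 from rfl, mul_add_one]; omega)
  have h5 : (K₀ + K + 2) ^ e ≤ 2 ^ e * (K₀ + K + 1) ^ e := by
    rw [← mul_pow]
    exact Nat.pow_le_pow_left (by omega) _
  replace h2 := h2.trans (Nat.mul_le_mul_right _ (Nat.add_le_add_left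
    (Nat.mul_le_mul_left _ h5) _))
  rw [pow_succ] at h1 h2 h3
  generalize (K₀ + K + 1) ^ e = R at *
  generalize (L + 1) ^ e = Q at *
  have g4 : (p : ℝ) * (m - (e + 2) * (e + 2) * R) ≤ La k (e + 2) := by
    have h6 : (p : ℝ) * (m - (e + 2) * (e + 2) * R : ℕ) ≤ La k (e + 2) := by exact_mod_cast h4
    refine le_trans (mul_le_mul_of_nonneg_left ?_ (Nat.cast_nonneg p)) h6
    rw [sub_le_iff_le_add]
    exact_mod_cast le_tsub_add
  have g1 : (R : ℝ) * (K₀ + K + 1) ≤ (e + 2) * m := by exact_mod_cast h1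
  have g2 : (w k (e + 2) : ℝ) ≤ (m + (e + 2) * (2 ^ e * R)) * (Q * (L + 1)) := by exact_mod_cast h2
  have g3 : ((e : ℝ) + 2) * (Q * (L + 1)) ≤ (e + 1) * p + (e + 2) * (e + 2) * Q := by
    exact_mod_cast h3
  have t : (1 : ℝ) ≤ 2 ^ e := one_le_pow₀ one_le_two
  have e0 : (0 : ℝ) ≤ e := Nat.cast_nonneg e
  have g5 : ((e : ℝ) + 2) * (e + 2) * (2 ^ e * R) ≤ δ * m := by
    refine le_of_mul_le_mul_left ?_ (show (0 : ℝ) < e + 2 by positivity)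
    nlinarith [mul_le_mul_of_nonneg_left g1 d0.le, mul_le_mul_of_nonneg_left hK (Nat.cast_nonneg R),
      show (0 : ℝ) ≤ δ * (R * (K + 1)) by positivity]
  have g6 : (R : ℝ) ≤ 2 ^ e * R := le_mul_of_one_le_left (Nat.cast_nonneg R) t
  push_cast
  rw [show (e : ℝ) + 2 - 1 = e + 1 by ring]
  refine ar (m := m) (p := p) (Q := Q) (L := L + 1) (by positivity) (by linarith) (by positivity)
    d0 d1 d2 (by positivity) (by positivity) (by positivity) (by positivity) ?_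
    (le_trans (mul_le_mul_of_nonneg_left ?_ (Nat.cast_nonneg p)) g4) (g2.trans ?_)
  · nlinarith [mul_le_mul_of_nonneg_left hL (show (0 : ℝ) ≤ (e + 2) * Q by positivity),
      show (0 : ℝ) ≤ (e + 2) * Q * δ by positivity]
  · nlinarith [mul_le_mul_of_nonneg_left g6 (show (0 : ℝ) ≤ (e + 2) * (e + 2) by positivity)]
  · rw [← mul_assoc (1 + δ)]
    refine mul_le_mul_of_nonneg_right ?_ (by positivity)
    nlinarith [show (0 : ℝ) ≤ (e + 2) * (e + 1) * (2 ^ e * R) by positivity]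

end Pool.Agent.KS6_54.VG
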