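import Pool.Agent.KS6_54.VG.Width

set_option autoImplicit false

namespace Pool.Agent.KS6_54.VG

open Finset

/-! ### The upper bound in every dimension -/

open Classical in
/-- the elements of `F` that are the last ones of `F` on their line in direction `i` -/
noncomputable def Tp {k d : ℕ} (F : Finset (Fin d → Fin k)) (i : Fin d) :
    Finset (Fin d → Fin k) :=
  F.filter fun x => ∀ y ∈ F, (∀ l, l ≠ i → y l = x l) → y i ≤ x i

lemma Tp_card {k e : ℕ} (F : Finset (Fin (e + 1) → Fin k)) (i : Fin (e + 1)) :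
    #(Tp F i) ≤ k ^ e := by
  classical
  have h : #(Tp F i) ≤ #(univ : Finset (Fin e → Fin k)) := by
    refine card_le_card_of_injOn (fun x l => x (i.succAbove l)) (fun _ _ => by simp)
      fun x hx y hy e1 => ?_
    obtain ⟨x1, x2⟩ := mem_filter.1 (mem_coe.1 hx)
    obtain ⟨y1, y2⟩ := mem_filter.1 (mem_coe.1 hy)
    have off : ∀ l, l ≠ i → x l = y l := fun l hl => by
      obtain ⟨m, rfl⟩ := Fin.exists_succAbove_eq hl
      exact congrFun e1 m
    funext l
    by_cases hl : l = i
    · subst hl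
      exact le_antisymm (y2 x x1 off) (x2 y y1 fun m hm => (off m hm).symm)
    · exact off l hl
  simpa using h

lemma Tp_many {k d : ℕ} {F : Finset (Fin d → Fin k)} (hF : VFree F) {x : Fin d → Fin k}
    (hx : x ∈ F) : d ≤ #{i | x ∈ Tp F i} + 1 := by
  classical
  have h : #{i | ¬ x ∈ Tp F i} ≤ 1 := by
    refine card_le_one.2 fun i hi j hj => ?_
    by_contra ne
    simp only [mem_filter, mem_univ, true_and, Tp, not_and, not_forall, not_le, exists_prop] at hi hj
    obtain ⟨y, y1, y2, y3⟩ := hi hx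
    obtain ⟨z, z1, z2, z3⟩ := hj hx
    refine hF ⟨x, hx, y, y1, z, z1, ?_, ?_, fun h => ?_, fun h => ?_⟩
    · refine Pi.lt_def.2 ⟨fun l => ?_, i, y3⟩
      by_cases hl : l = i
      · subst hl; exact y3.le
      · rw [y2 l hl]
    · refine Pi.lt_def.2 ⟨fun l => ?_, j, z3⟩
      by_cases hl : l = j
      · subst hl; exact z3.le
      · rw [z2 l hl]
    · have := h i
      rw [z2 i ne] at this
      exact absurd y3 (not_lt.2 this)
    · have := h j
      rw [y2 j (Ne.symm ne)] at this
      exact absurd z3 (not_lt.2 this)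
  have := card_filter_add_card_filter_not (s := (univ : Finset (Fin d))) (fun i => x ∈ Tp F i)
  simp only [card_univ, Fintype.card_fin] at this
  omega

lemma upper {k e : ℕ} {F : Finset (Fin (e + 1) → Fin k)} (hF : VFree F) :
    e * #F ≤ (e + 1) * k ^ e := by
  classical
  have h1 : ∑ x ∈ F, #{i | x ∈ Tp F i} = ∑ i, #(Tp F i) := by
    simp only [card_eq_sum_ones, sum_filter]
    rw [sum_comm]
    refine sum_congr rfl fun i _ => ?_
    rw [← sum_filter]
    refine sum_congr ?_ fun _ _ => rfl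
    ext x
    simp only [mem_filter, Tp]
    tauto
  have h2 : ∑ x ∈ F, e ≤ ∑ x ∈ F, #{i | x ∈ Tp F i} := sum_le_sum fun x hx => by
    have := Tp_many hF hx
    omega
  have h3 : ∑ i, #(Tp F i) ≤ ∑ _i : Fin (e + 1), k ^ e := sum_le_sum fun i _ => Tp_card F i
  simp only [sum_const, card_univ, Fintype.card_fin, smul_eq_mul] at h2 h3
  rw [mul_comm]
  exact h2.trans (h1.le.trans h3)

lemma La_upper (k e : ℕ) : e * La k (e + 1) ≤ (e + 1) * k ^ e := by
  classical
  obtain ⟨F, hF, e1⟩ := exists_mem_eq_sup (univ.filter fun F : Finset (Fin (e + 1) → Fin k) =>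
    VFree F) ⟨∅, by simp [VFree]⟩ card
  rw [La, e1]
  exact upper (mem_filter.1 hF).2

/-! ### The family in dimension three -/

/-- the points of `[k]^3` whose smallest coordinate is attained once and whose smallest and
largest coordinates add up to `k - 1` (coordinates start at `0`) -/
def Fam (k : ℕ) : Finset (Fin 3 → Fin k) :=
  {x | ∃ l : Fin 3, (x l : ℕ) + max (x (l + 1) : ℕ) (x (l + 2)) + 1 = k ∧
    k ≤ (x (l + 1) : ℕ) + x (l + 2)}

lemma Fam_free (k : ℕ) : VFree (Fam k) := by
  rintro ⟨a, ha, b, hb, c, hc, ab, ac, n1, n2⟩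
  have key : ∃ i : Fin 3, ∀ b ∈ Fam k, a ≤ b → ∀ j, j ≠ i → b j = a j := by
    obtain ⟨l, a1, a2⟩ := (mem_filter.1 ha).2
    refine ⟨if (a (l + 1) : ℕ) ≤ a (l + 2) then l + 1 else l + 2, fun b hb ab j hj => ?_⟩
    obtain ⟨m, b1, b2⟩ := (mem_filter.1 hb).2
    have h0 := ab 0
    have h1 := ab 1
    have h2 := ab 2
    rw [Fin.le_def] at h0 h1 h2
    apply Fin.ext
    fin_cases l <;> fin_cases m <;> simp at a1 a2 b1 b2 hj <;> split_ifs at hj <;>
      fin_cases j <;> simp at hj ⊢ <;> omega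
  obtain ⟨i, key⟩ := key
  rcases le_total (b i) (c i) with h | h
  · exact n1 fun j => if e : j = i then e ▸ h else by rw [key b hb ab.le j e, key c hc ac.le j e]
  · exact n2 fun j => if e : j = i then e ▸ h else by rw [key b hb ab.le j e, key c hc ac.le j e]

/-- the pairs with sum at least `k` -/
def Pr (k : ℕ) : Finset (Fin k × Fin k) := {p | k ≤ (p.1 : ℕ) + p.2}

lemma row (k : ℕ) (y : Fin k) : #{z : Fin k | k ≤ (y : ℕ) + z} = y := by
  have h : ∀ z : Fin k, k ≤ (y : ℕ) + z ↔ ((k - 1 - z : ℕ)) < y := fun z => by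
    have := z.2
    have := y.2
    omega
  simp_rw [h]
  have e : (univ.filter fun z : Fin k => k - 1 - (z : ℕ) < y) =
      (Finset.Iio y).map Fin.revPerm.toEmbedding := by
    ext z
    simp only [mem_filter, mem_univ, true_and, mem_map, mem_Iio, Equiv.coe_toEmbedding,
      Fin.revPerm_apply]
    constructor
    · intro hz
      refine ⟨z.rev, ?_, by simp⟩
      rw [Fin.lt_def, Fin.val_rev]
      omega
    · rintro ⟨w, hw, rfl⟩
      rw [Fin.lt_def] at hw
      rw [Fin.val_rev]
      omega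
  rw [e, card_map, Fin.card_Iio]

lemma Pr_card (k : ℕ) : 2 * #(Pr k) = k * (k - 1) := by
  classical
  have h : #(Pr k) = ∑ y : Fin k, (y : ℕ) := by
    rw [Pr, card_filter, Fintype.sum_prod_type]
    refine sum_congr rfl fun y _ => ?_
    rw [← card_filter]
    exact row k y
  rw [h, Fin.sum_univ_eq_sum_range (fun i => i) k, mul_comm, Finset.sum_range_id_mul_two]

lemma Fam_card (k : ℕ) : 3 * (k * (k - 1)) ≤ 2 * #(Fam k) := by
  classical
  have h : #((univ : Finset (Fin 3)) ×ˢ Pr k) ≤ #(Fam k) := by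
    refine card_le_card_of_injOn (fun q j => if j = q.1 then
      (⟨k - 1 - max (q.2.1 : ℕ) q.2.2, by have := q.2.1.2; omega⟩ : Fin k) else
      if j = q.1 + 1 then q.2.1 else q.2.2) (fun q hq => ?_) fun q hq q' hq' e => ?_
    · obtain ⟨l, y, z⟩ := q
      simp only [coe_product, Set.mem_prod, mem_coe, mem_univ, true_and, Pr, mem_filter] at hq
      simp only [Fam, coe_filter, mem_univ, true_and, Set.mem_ofPred_eq]
      have hy := y.2
      have hz := z.2
      refine ⟨l, ?_⟩
      fin_cases l <;> simp <;> omega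
    · obtain ⟨l, y, z⟩ := q
      obtain ⟨l', y', z'⟩ := q'
      simp only [coe_product, Set.mem_prod, mem_coe, mem_univ, true_and, Pr, mem_filter] at hq hq'
      have e0 := congrArg Fin.val (congrFun e 0)
      have e1 := congrArg Fin.val (congrFun e 1)
      have e2 := congrArg Fin.val (congrFun e 2)
      have hy := y.2
      have hz := z.2
      have hy' := y'.2
      have hz' := z'.2
      simp only [Prod.mk.injEq, Fin.ext_iff (a := y), Fin.ext_iff (a := z)]
      fin_cases l <;> fin_cases l' <;> simp at e0 e1 e2 ⊢ <;> omega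
  rw [card_product, card_univ, Fintype.card_fin] at h
  have := Pr_card k
  omega

lemma La_lower (k : ℕ) : 3 * (k * (k - 1)) ≤ 2 * La k 3 := by
  classical
  have h : #(Fam k) ≤ La k 3 := le_sup (f := card) (mem_filter.2 ⟨mem_univ _, Fam_free k⟩)
  have := Fam_card k
  omega

/-! ### The width in dimension three -/

/-- The number of the chain of `[k]^2` through `(x, y)`. -/
def cno (k x y : ℕ) : ℕ := if x + y ≤ k - 1 then y else k - 1 - x

lemma cno_lt {k x y : ℕ} (hx : x < k) (hy : y < k) : cno k x y < k := by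
  unfold cno; split_ifs <;> omega

lemma comp_of_cno {k x y x' y' : ℕ} (hx : x < k) (_hy : y < k) (hx' : x' < k) (_hy' : y' < k)
    (h : cno k x y = cno k x' y') : (x ≤ x' ∧ y ≤ y') ∨ (x' ≤ x ∧ y' ≤ y) := by
  unfold cno at h; split_ifs at h <;> omega

lemma sum_odd (m : ℕ) : ∑ i ∈ Finset.range m, (2 * m - 1 - 2 * i) = m ^ 2 := by
  induction m with
  | zero => simp
  | succ m ih =>
    rw [Finset.sum_range_succ']
    have : ∑ i ∈ Finset.range m, (2 * (m + 1) - 1 - 2 * (i + 1)) =
        ∑ i ∈ Finset.range m, (2 * m - 1 - 2 * i) :=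
      Finset.sum_congr rfl fun i _ => by omega
    rw [this, ih]
    have : 2 * (m + 1) - 1 - 2 * 0 = 2 * m + 1 := by omega
    rw [this]; ring

lemma card_antichain {k : ℕ} (F : Finset (Fin 3 → Fin k))
    (hF : IsAntichain (· ≤ ·) (F : Set (Fin 3 → Fin k))) : 4 * F.card ≤ 3 * k ^ 2 + 1 := by
  classical
  set c : (Fin 3 → Fin k) → ℕ := fun x => cno k (x 0) (x 1) with hc
  have hcl : ∀ x ∈ F, c x ∈ Finset.range k := fun x _ =>
    Finset.mem_range.mpr (cno_lt (x 0).2 (x 1).2)
  have hcard : F.card = ∑ j ∈ Finset.range k, (F.filter fun x => c x = j).card :=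
    Finset.card_eq_sum_card_fiberwise hcl
  have heq : ∀ x ∈ F, ∀ y ∈ F, (x ≤ y ∨ y ≤ x) → x = y := by
    intro x hx y hy h
    by_contra hne
    rcases h with h | h
    · exact hF hx hy hne h
    · exact hF hy hx (Ne.symm hne) h
  have hle : ∀ x y : Fin 3 → Fin k, (x 0 : ℕ) ≤ y 0 → (x 1 : ℕ) ≤ y 1 → (x 2 : ℕ) ≤ y 2 →
      x ≤ y := by
    intro x y h0 h1 h2 i
    fin_cases i
    · exact h0
    · exact h1
    · exact h2
  have h1 : ∀ j, (F.filter fun x => c x = j).card ≤ k := by
    intro j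
    have : (F.filter fun x => c x = j).card ≤ (Finset.range k).card := by
      refine Finset.card_le_card_of_injOn (fun x => ((x 2 : Fin k) : ℕ)) ?_ ?_
      · intro x _
        simp
      · intro x hx y hy hxy
        simp only [Finset.coe_filter, Set.mem_ofPred_eq] at hx hy
        have hxy' : ((x 2 : Fin k) : ℕ) = y 2 := hxy
        have hcc : cno k (x 0) (x 1) = cno k (y 0) (y 1) := hx.2.trans hy.2.symm
        rcases comp_of_cno (x 0).2 (x 1).2 (y 0).2 (y 1).2 hcc with h | h
        · exact heq x hx.1 y hy.1 (Or.inl (hle x y h.1 h.2 hxy'.le))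
        · exact heq x hx.1 y hy.1 (Or.inr (hle y x h.1 h.2 hxy'.ge))
    simpa using this
  have h2 : ∀ j, (F.filter fun x => c x = j).card ≤ 2 * k - 1 - 2 * j := by
    intro j
    have : (F.filter fun x => c x = j).card ≤ (Finset.Ico j (2 * k - 1 - j)).card := by
      refine Finset.card_le_card_of_injOn (fun x => ((x 0 : Fin k) : ℕ) + ((x 1 : Fin k) : ℕ)) ?_ ?_
      · intro x hx
        simp only [Finset.coe_filter, Set.mem_ofPred_eq] at hx
        have hcc : cno k (x 0) (x 1) = j := hx.2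
        have e0 := (x 0).2
        have e1 := (x 1).2
        simp only [Finset.coe_Ico, Set.mem_Ico]
        unfold cno at hcc
        split_ifs at hcc <;> omega
      · intro x hx y hy hxy
        simp only [Finset.coe_filter, Set.mem_ofPred_eq] at hx hy
        have hxy' : ((x 0 : Fin k) : ℕ) + ((x 1 : Fin k) : ℕ) = (y 0 : Fin k) + (y 1 : Fin k) := hxy
        have hcc : cno k (x 0) (x 1) = cno k (y 0) (y 1) := hx.2.trans hy.2.symm
        have hco := comp_of_cno (x 0).2 (x 1).2 (y 0).2 (y 1).2 hcc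
        have e0 : ((x 0 : Fin k) : ℕ) = y 0 := by omega
        have e1 : ((x 1 : Fin k) : ℕ) = y 1 := by omega
        rcases le_total ((x 2 : Fin k) : ℕ) (y 2) with h | h
        · exact heq x hx.1 y hy.1 (Or.inl (hle x y e0.le e1.le h))
        · exact heq x hx.1 y hy.1 (Or.inr (hle y x e0.ge e1.ge h))
    refine this.trans ?_
    simp only [Nat.card_Ico]
    omega
  obtain ⟨m, r, hk, hr⟩ : ∃ m r, k = r + m ∧ (r = m ∨ r = m + 1) := by
    refine ⟨k / 2, k - k / 2, by omega, by omega⟩
  have hs : F.card ≤ r * k + m ^ 2 := by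
    have hR : Finset.range k = Finset.range (r + m) := by rw [hk]
    rw [hcard, hR, Finset.sum_range_add]
    refine add_le_add ?_ ?_
    · calc ∑ j ∈ Finset.range r, (F.filter fun x => c x = j).card
          ≤ ∑ _j ∈ Finset.range r, k := Finset.sum_le_sum fun j _ => h1 j
        _ = r * k := by simp
    · calc ∑ j ∈ Finset.range m, (F.filter fun x => c x = r + j).card
          ≤ ∑ j ∈ Finset.range m, (2 * m - 1 - 2 * j) := by
            refine Finset.sum_le_sum fun j _ => (h2 (r + j)).trans ?_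
            omega
        _ = m ^ 2 := sum_odd m
  clear hcard hcl h1 h2 heq hle hc hF
  generalize F.card = M at hs ⊢
  clear c F
  subst hk
  rcases hr with rfl | rfl
  · nlinarith
  · nlinarith

lemma w_upper (k : ℕ) : 4 * w k 3 ≤ 3 * k ^ 2 + 1 := by
  classical
  obtain ⟨F, hF, e1⟩ := exists_mem_eq_sup (univ.filter fun A : Finset (Fin 3 → Fin k) =>
    IsAntichain (· ≤ ·) (A : Set (Fin 3 → Fin k))) ⟨∅, by simp⟩ card
  rw [w, e1]
  exact card_antichain F (mem_filter.1 hF).2

/-- the pairs with sum less than `n` -/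
lemma small (k n : ℕ) : 2 * #{p : Fin k × Fin k | (p.1 : ℕ) + p.2 < n} ≤ n * (n + 1) := by
  classical
  have h : #{p : Fin k × Fin k | (p.1 : ℕ) + p.2 < n} ≤ #((range n).sigma fun x => range (n - x)) := by
    refine card_le_card_of_injOn (fun p => ⟨p.1, p.2⟩) (fun p hp => ?_) fun p _ q _ e => ?_
    · simp only [coe_filter, mem_univ, true_and, Set.mem_ofPred_eq] at hp
      simp only [coe_sigma, Set.mem_sigma_iff, mem_coe, mem_range]
      omega
    · simp only [Sigma.mk.injEq, heq_eq_eq] at e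
      exact Prod.ext (Fin.ext e.1) (Fin.ext e.2)
  rw [card_sigma] at h
  simp only [card_range] at h
  have g : ∑ x ∈ range n, (n - x) = ∑ x ∈ range (n + 1), x := by
    rw [sum_range_succ', add_zero, ← sum_range_reflect]
    exact sum_congr rfl fun x hx => by
      have := mem_range.1 hx
      omega
  rw [g] at h
  have := Finset.sum_range_id_mul_two (n + 1)
  simp only [Nat.add_sub_cancel] at this
  nlinarith

lemma w_lower (k : ℕ) : 3 * k ^ 2 ≤ 4 * w k 3 := by
  classical
  rcases Nat.eq_zero_or_pos k with rfl | hk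
  · simp
  have h0 : #{x : Fin 3 → Fin k | (x 0 : ℕ) + x 1 + x 2 = 3 * (k - 1) / 2} ≤ w k 3 := by
    refine le_sup (f := card) (mem_filter.2 ⟨mem_univ _, ?_⟩)
    intro x hx y hy ne h
    simp only [coe_filter, mem_univ, true_and, Set.mem_ofPred_eq] at hx hy
    refine ne (funext fun i => Fin.ext ?_)
    have h0 := h 0
    have h1 := h 1
    have h2 := h 2
    rw [Fin.le_def] at h0 h1 h2
    fin_cases i <;> simp <;> omega
  have h1 : #{p : Fin k × Fin k | ¬ (p.1 : ℕ) + p.2 < 3 * (k - 1) / 2 - (k - 1) ∧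
      ¬ (p.1.rev : ℕ) + p.2.rev < 2 * (k - 1) - 3 * (k - 1) / 2} ≤
      #{x : Fin 3 → Fin k | (x 0 : ℕ) + x 1 + x 2 = 3 * (k - 1) / 2} := by
    refine card_le_card_of_injOn (fun p => ![p.1, p.2,
      ⟨(3 * (k - 1) / 2 - p.1 - p.2) % k, Nat.mod_lt _ hk⟩]) (fun p hp => ?_) fun p _ q _ e => ?_
    · simp only [coe_filter, mem_univ, true_and, Set.mem_ofPred_eq, Fin.val_rev] at hp ⊢
      have := p.1.2
      have := p.2.2
      have e : (3 * (k - 1) / 2 - (p.1 : ℕ) - p.2) % k = 3 * (k - 1) / 2 - p.1 - p.2 :=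
        Nat.mod_eq_of_lt (by omega)
      simp only [Matrix.cons_val_zero, Matrix.cons_val_one, Matrix.cons_val]
      omega
    · exact Prod.ext (congrFun e 0) (congrFun e 1)
  have h2 : #{p : Fin k × Fin k | (p.1.rev : ℕ) + p.2.rev < 2 * (k - 1) - 3 * (k - 1) / 2} ≤
      #{p : Fin k × Fin k | (p.1 : ℕ) + p.2 < 2 * (k - 1) - 3 * (k - 1) / 2} := by
    refine card_le_card_of_injOn (fun p => (p.1.rev, p.2.rev)) (fun p hp => ?_)
      fun p _ q _ e => ?_
    · simpa using hp
    · simp only [Prod.mk.injEq, Fin.rev_inj] at e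
      exact Prod.ext e.1 e.2
  have h3 : #(univ : Finset (Fin k × Fin k)) ≤
      #{p : Fin k × Fin k | (p.1 : ℕ) + p.2 < 3 * (k - 1) / 2 - (k - 1)} +
      #{p : Fin k × Fin k | (p.1.rev : ℕ) + p.2.rev < 2 * (k - 1) - 3 * (k - 1) / 2} +
      #{p : Fin k × Fin k | ¬ (p.1 : ℕ) + p.2 < 3 * (k - 1) / 2 - (k - 1) ∧
      ¬ (p.1.rev : ℕ) + p.2.rev < 2 * (k - 1) - 3 * (k - 1) / 2} := by
    refine (card_le_card fun p _ => ?_).trans ((card_union_le _ _).trans
      (Nat.add_le_add_right (card_union_le _ _) _))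
    simp only [mem_union, mem_filter, mem_univ, true_and]
    tauto
  have s1 := small k (3 * (k - 1) / 2 - (k - 1))
  have s2 := small k (2 * (k - 1) - 3 * (k - 1) / 2)
  simp only [card_univ, Fintype.card_prod, Fintype.card_fin] at h3
  obtain ⟨m, r, hm, hr, hr'⟩ : ∃ m r, k = 2 * m + r + 1 ∧ 3 * (k - 1) / 2 - (k - 1) = m ∧
      2 * (k - 1) - 3 * (k - 1) / 2 = m + r ∧ r ≤ 1 :=
    ⟨(k - 1) / 2, (k - 1) % 2, by omega, by omega, by omega, by omega⟩
  rw [hr] at h1 h3 s1
  rw [hr'.1] at h1 h2 h3 s2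
  have h4 := hr'.2
  clear hr hr'
  generalize #{p : Fin k × Fin k | (p.1 : ℕ) + p.2 < m} = A at *
  generalize #{p : Fin k × Fin k | (p.1 : ℕ) + p.2 < m + r} = B at *
  generalize w k 3 = W at *
  have h5 : k * k ≤ A + B + W := by omega
  subst hm
  interval_cases r <;> nlinarith

end Pool.Agent.KS6_54.VG
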